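import Pool.Agent.Lib.MP_95bb8c_al.PX.ULog

set_option autoImplicit false

namespace Pool.Agent.Results.MP_95bb8c_al.Expanders

open Pool.Agent.Lib.MP_95bb8c_al

variable {n : ℕ}

/-- The number of edges of the Whitehead graph which join `u` and `v`. -/
def mult (U : List (List (Letter n))) (u v : Letter n) : ℕ :=
  (Finset.univ.filter fun p : Pos U =>
    (src U p = u ∧ tgt U p = v) ∨ (src U p = v ∧ tgt U p = u)).card

/-- The degree of the vertex `v` of the Whitehead graph. -/
noncomputable def deg (U : List (List (Letter n))) (v : Letter n) : ℕ := (star U v).card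

/-- The volume of a set of vertices: the sum of the degrees. -/
noncomputable def vol (U : List (List (Letter n))) (T : Finset (Letter n)) : ℕ :=
  ∑ v ∈ T, deg U v

/-- The tiling conjecture (in its graph form) for all lists whose Whitehead graph is an expander
without heavy multiplicities: every set `T` of vertices is left by at least
`c * min (vol T) (vol Tᶜ)` edges, all positive degrees are at least `δ`, and the multiplicity of
any two vertices is at most the degree times `c ^ 6` over `10 ^ 18 * (log (2 * |E| / (c * δ))) ^ 3`,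
where `|E|` is the number of edges, that is, the total length of the list. Nothing else is
assumed. -/
theorem result (hn : 1 < n) (U : List (List (Letter n))) (hne : U ≠ []) (hU : CycRed U)
    (c δ : ℝ) (hc : 0 < c) (hδ : 0 < δ) (hdeg : ∀ v, 0 < deg U v → δ ≤ deg U v)
    (hcut : ∀ T : Finset (Letter n),
      c * min (vol U T : ℝ) (vol U Tᶜ : ℝ) ≤ (cut (src U) (tgt U) T).card)
    (hmult : ∀ u v : Letter n, u ≠ v →
      10 ^ 18 * Real.log (2 * Fintype.card (Pos U) / (c * δ)) ^ 3 * mult U u v ≤
        c ^ 6 * deg U v) :
    ∃ L : List (Finset (Pos U)),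
      (∀ C ∈ L, IsCycle (src U) (tgt U) C) ∧
      (∃ C ∈ L, 3 ≤ C.card) ∧
      ∀ v : Letter n, ∀ e ∈ star U v, ∀ f ∈ star U v,
        (L.countP fun C => e ∈ C ∧ f ∈ C) =
          (L.countP fun C => conMap U v e ∈ C ∧ conMap U v f ∈ C) := by
  have hd : ∀ v : Letter n, deg U v = occ U v.1 := fun v => dg_eq hU v
  have hvol : ∀ T : Finset (Letter n), (vol U T : ℝ) = ∑ v ∈ T, (occ U v.1 : ℝ) := by
    intro T
    unfold vol
    rw [Nat.cast_sum]
    exact Finset.sum_congr rfl fun v _ => by rw [hd v]
  refine PX.expand_unif_log hn hU hne c δ hc hδ ?_ ?_ ?_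
  · intro a ha
    have h1 := hdeg (a, true)
    rw [hd] at h1
    exact h1 ha
  · intro T
    rw [← hvol, ← hvol]
    exact hcut T
  · intro u v huv
    have h1 := hmult u v huv
    rw [hd] at h1
    have h2 : mult U u v = GW.mult U u v := by
      unfold mult GW.mult GW.J
      congr 1
      apply Finset.filter_congr
      intro p _
      exact ⟨fun h => ⟨huv, h⟩, fun h => h.2⟩
    rw [h2] at h1
    exact h1

end Pool.Agent.Results.MP_95bb8c_al.Expanders
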