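import Pool.Agent.Lib.MP_95bb8c_al.NI.Final

set_option autoImplicit false

namespace Pool.Agent.Results.MP_95bb8c_al.FewReadings

open Pool.Agent.Lib.MP_95bb8c_al Pool.Agent.Lib.MP_95bb8c_al.BU Pool.Agent.Lib.MP_95bb8c_al.NI

open Classical in
/-- The tiling conjecture (in its graph form) for all lists in which each generator, except
possibly one, has at most four different readings, or at least half of its occurrences have the
same reading, or is never isolated: each of its occurrences is cyclically next to another
occurrence of the same letter. The readings of a generator are the bi-infinite words obtained by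
repeating the words of the list, centred at the occurrences of the generator and its inverse. -/
theorem result (n : ℕ) (hn : 1 < n) (U : List (List (Letter n))) (hU : CycRed U)
    (hconn : Conn (src U) (tgt U)) (hlam : ∀ v, lam U v (bar v) = (star U v).card)
    (a₀ : Fin n) (h : ∀ a : Fin n, a ≠ a₀ → (readings U a).card ≤ 4 ∨
      (∃ r, occ U a ≤
        2 * (Finset.univ.filter fun p : Pos U => p.letter.1 = a ∧ reading p = r).card) ∨
      NeverIsolated U a) :
    ∃ L : List (Finset (Pos U)),
      (∀ C ∈ L, IsCycle (src U) (tgt U) C) ∧
      (∃ C ∈ L, 3 ≤ C.card) ∧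
      ∀ v : Letter n, ∀ e ∈ star U v, ∀ f ∈ star U v,
        (L.countP fun C => e ∈ C ∧ f ∈ C) =
          (L.countP fun C => conMap U v e ∈ C ∧ conMap U v f ∈ C) :=
  few_readings_ni hn U hU hconn hlam a₀ h

end Pool.Agent.Results.MP_95bb8c_al.FewReadings
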