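import Pool.Agent.Lib.MP_95bb8c_al.GW.Assembly
import Pool.Agent.Lib.MP_95bb8c_al.GW.BalAssembly

set_option autoImplicit false

namespace Pool.Agent.Results.MP_95bb8c_al.NearlyUniform

open Pool.Agent.Lib.MP_95bb8c_al Pool.Agent.Lib.MP_95bb8c_al.GW

/-- The tiling conjecture (in its graph form) for all lists whose Whitehead graph has multiplicities
within a factor `R`, if the rank is at least `n₀ R`; here `n₀ R = 2` for `R ≤ 56 / 55`, and
`n₀ R = 10 ^ 14 * R ^ 14` in general. The number of edges between `u` and `v` is the number of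
places of the list at which the two-letter word `u v⁻¹` or its inverse is read, cyclically. Nothing
else is assumed. -/
theorem result (n : ℕ) (hn : 1 < n) (U : List (List (Letter n))) (hU : CycRed U) (hne : U ≠ [])
    (R : ℝ) (hR : R ≤ 56 / 55 ∨ 10 ^ 14 * R ^ 14 ≤ (n : ℝ))
    (h : ∀ u v u' v' : Letter n, u ≠ v → u' ≠ v' → (mult U u v : ℝ) ≤ R * mult U u' v') :
    ∃ L : List (Finset (Pos U)),
      (∀ C ∈ L, IsCycle (src U) (tgt U) C) ∧
      (∃ C ∈ L, 3 ≤ C.card) ∧
      ∀ v : Letter n, ∀ e ∈ star U v, ∀ f ∈ star U v,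
        (L.countP fun C => e ∈ C ∧ f ∈ C) =
          (L.countP fun C => conMap U v e ∈ C ∧ conMap U v f ∈ C) := by
  rcases hR with hR | hR
  · refine near_polygonal55 hn hU hne ?_
    intro u v u' v' huv huv'
    have h1 := h u v u' v' huv huv'
    have h2 : R * (mult U u' v' : ℝ) ≤ 56 / 55 * (mult U u' v' : ℝ) :=
      mul_le_mul_of_nonneg_right hR (Nat.cast_nonneg _)
    have h3 : (55 : ℝ) * mult U u v ≤ 56 * mult U u' v' := by linarith
    exact_mod_cast h3
  · exact bal_polygonal hn hR hU hne h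

end Pool.Agent.Results.MP_95bb8c_al.NearlyUniform
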