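import Pool.Agent.Lib.MP_95bb8c_al.OE.Final

set_option autoImplicit false

namespace Pool.Agent.Results.MP_95bb8c_al.OneExceptional

open Pool.Agent.Lib.MP_95bb8c_al

/-- The tiling conjecture (in its graph form) for all lists in which every generator but one occurs
exactly `D` times or at most three times, and the exceptional one at most `D` times. -/
theorem result (n : ℕ) (hn : 1 < n) (U : List (List (Letter n))) (hU : CycRed U)
    (hconn : Conn (src U) (tgt U)) (hlam : ∀ v, lam U v (bar v) = (star U v).card) (D : ℕ)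
    (a₀ : Fin n) (hD : ∀ a : Fin n, a ≠ a₀ → occ U a = D ∨ occ U a ≤ 3) (h₀ : occ U a₀ ≤ D) :
    ∃ L : List (Finset (Pos U)),
      (∀ C ∈ L, IsCycle (src U) (tgt U) C) ∧
      (∃ C ∈ L, 3 ≤ C.card) ∧
      ∀ v : Letter n, ∀ e ∈ star U v, ∀ f ∈ star U v,
        (L.countP fun C => e ∈ C ∧ f ∈ C) =
          (L.countP fun C => conMap U v e ∈ C ∧ conMap U v f ∈ C) :=
  OE.one_exceptional hn U hU hconn hlam D a₀ hD h₀

end Pool.Agent.Results.MP_95bb8c_al.OneExceptional
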